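import Pool.Agent.Y579.NG.Extra

/-!
# A computable infinite binary tree without computable paths
-/

namespace Pool.Agent.Y404.NG

open Pool.Agent.Y579.NG Pool.Agent.Results.MP_743c94_lc.Full
open Encodable Denumerable
open Nat.Partrec (Code)

/-- Within `|σ|` steps, the `e`-th code is seen to output at `e` the bit `σ e`. -/
def Hit (e : ℕ) (σ : List Bool) : Prop :=
  Code.evaln σ.length (ofNat Code e) e = some (encode (σ.getD e false))

instance (e : ℕ) (σ : List Bool) : Decidable (Hit e σ) := by
  unfold Hit
  infer_instance

lemma primrec_hit : PrimrecRel Hit := by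
  have ha : Primrec (fun x : ℕ × List Bool => ofNat Code x.1) :=
    (Primrec.ofNat Code).comp Primrec.fst
  have hb : Primrec (fun x : ℕ × List Bool => x.2.length) :=
    Primrec.list_length.comp Primrec.snd
  have hc : Primrec (fun x : ℕ × List Bool =>
      Code.evaln x.2.length (ofNat Code x.1) x.1) :=
    Code.primrec_evaln.comp ((hb.pair ha).pair Primrec.fst)
  have hd : Primrec (fun x : ℕ × List Bool => some (encode (x.2.getD x.1 false))) :=
    Primrec.option_some.comp (Primrec.encode.comp
      ((Primrec.list_getD false).comp Primrec.snd Primrec.fst))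
  have h : PrimrecPred (fun x : ℕ × List Bool =>
      Code.evaln x.2.length (ofNat Code x.1) x.1 = some (encode (x.2.getD x.1 false))) :=
    PrimrecRel.comp Primrec.eq hc hd
  exact h

/-- The tree. -/
def tree (σ : List Bool) : Bool := decide (∀ e ∈ List.range σ.length, ¬ Hit e σ)

lemma tree_iff (σ : List Bool) : tree σ = true ↔ ∀ e < σ.length, ¬ Hit e σ := by
  simp [tree]

lemma computable_tree : Computable tree := by
  have h1 : PrimrecRel (fun (e : ℕ) (σ : List Bool) => ¬ Hit e σ) := PrimrecRel.not primrec_hit
  have h2 := PrimrecRel.forall_mem_list h1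
  have h3 : PrimrecPred (fun σ : List Bool => ∀ e ∈ List.range σ.length, ¬ Hit e σ) :=
    h2.comp (Primrec.list_range.comp Primrec.list_length) Primrec.id
  exact (PrimrecPred.decide h3).to_comp

theorem t_KLEENE : KLEENE := by
  refine ⟨tree, computable_tree, ?_, ?_, ?_⟩
  · intro σ τ hστ hτ
    rw [tree_iff] at hτ ⊢
    intro e he hit
    obtain ⟨ρ, rfl⟩ := hστ
    have hle : σ.length ≤ (σ ++ ρ).length := by simp
    refine hτ e (lt_of_lt_of_le he hle) ?_
    unfold Hit at hit ⊢
    rw [List.getD_append _ _ _ _ he]
    exact Option.mem_def.1 (Code.evaln_mono hle (Option.mem_def.2 hit))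
  · intro n
    refine ⟨pre (fun e => decide (Code.evaln n (ofNat Code e) e = some 0)) n, by simp, ?_⟩
    rw [tree_iff]
    intro e he hit
    unfold Hit at hit
    rw [pre_length] at he hit
    rw [pre_getD _ he] at hit
    by_cases h : Code.evaln n (ofNat Code e) e = some 0
    · rw [decide_eq_true h, h] at hit
      simp at hit
    · rw [decide_eq_false h] at hit
      exact h hit
  · intro q hq hc
    have hpart : Partrec (fun n : ℕ => (Part.some (q n) : Part Bool)) := hc
    obtain ⟨c, hc'⟩ := Code.exists_code.1 hpart
    have h1 : encode (q (encode c)) ∈ Code.eval c (encode c) := by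
      rw [hc']
      simp
    obtain ⟨k, hk⟩ := Code.evaln_complete.1 h1
    have h2 := (tree_iff _).1 (hq (max k (encode c + 1))) (encode c) (by
      rw [pre_length]
      exact lt_of_lt_of_le (Nat.lt_succ_self _) (le_max_right _ _))
    apply h2
    unfold Hit
    rw [pre_length, pre_getD _ (lt_of_lt_of_le (Nat.lt_succ_self _) (le_max_right _ _)),
      ofNat_encode]
    exact Option.mem_def.1 (Code.evaln_mono (le_max_left _ _) hk)

end Pool.Agent.Y404.NG
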